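import Pool.Agent.Q19.LH.Hopf

/-!
# A local Hopf algebra that is not symmetric

Over every field of characteristic two there is a 64-dimensional local Hopf algebra whose
underlying algebra is not symmetric.  The Hopf algebra is given by structure constants in `{0,1}`
(`Pool.Agent.Q19.LH.Data`), found by a computer search through iterated extensions of connected
Hopf algebras (it is the dual of such a connected Hopf algebra).  The Hopf algebra axioms are
verified in `Pool.Agent.Q19.LH.Hopf`.
-/

namespace Pool.Agent.Results.MP_af7f8e_al.NonSymmetricLocal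

open TensorProduct Pool.Agent.Q19.LH

universe u

/-- A `k`-algebra is symmetric if there is a linear form `lam` with `lam (a * b) = lam (b * a)`
whose kernel contains no nonzero left ideal. -/
def IsSymmetricAlgebra (k : Type u) (A : Type u) [Field k] [Ring A] [Algebra k A] : Prop :=
  ∃ lam : A →ₗ[k] k, (∀ a b : A, lam (a * b) = lam (b * a)) ∧
    ∀ I : Ideal A, (∀ x ∈ I, lam x = 0) → I = ⊥

section

variable (k : Type u) [Field k] [CharP k 2]

/-- The span of the basis vectors of index at least `n`. -/
noncomputable def F (n : ℕ) : Submodule k (H k) :=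
  Submodule.span k {x | ∃ j, n ≤ j ∧ j < 64 ∧ x = e k j}

theorem e_mem_F {n j : ℕ} (h : n ≤ j) (hj : j < 64) : e k j ∈ F k n :=
  Submodule.subset_span ⟨j, h, hj, rfl⟩

theorem F_top : F k 64 = ⊥ := by
  unfold F
  rw [Submodule.span_eq_bot]
  rintro x ⟨j, h1, h2, _⟩
  omega

theorem mul_mem_F {n : ℕ} {x y : H k} (hx : x ∈ F k 1) (hy : y ∈ F k n) : x * y ∈ F k (n + 1) := by
  have h : F k 1 * F k n ≤ F k (n + 1) := by
    unfold F
    rw [Submodule.span_mul_span, Submodule.span_le]
    rintro z ⟨a, ⟨i, hi1, hi2, rfl⟩, b, ⟨j, hj1, hj2, rfl⟩, rfl⟩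
    show e k i * e k j ∈ F k (n + 1)
    rw [e_mul_e]
    have h1 : ∀ l : List ℕ, (∀ a ∈ l, n + 1 ≤ a ∧ a < 64) → ev (e k) l ∈ F k (n + 1) := by
      intro l
      induction l with
      | nil => intro _; rw [ev_nil]; exact Submodule.zero_mem _
      | cons a l ih =>
        intro h
        rw [ev_cons]
        exact Submodule.add_mem _ (e_mem_F k (h a (by simp)).1 (h a (by simp)).2)
          (ih fun b hb => h b (by simp [hb]))
    apply h1
    intro a ha
    have := filt hi2 (by omega) hj2 ha
    omega
  exact h (Submodule.mul_mem_mul hx hy)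

theorem sub_counit_mem (a : H k) : a - (counitA k a) • 1 ∈ F k 1 := by
  apply vec_ind (fun a => a - (counitA k a) • (1 : H k) ∈ F k 1)
  · rw [map_zero, zero_smul, sub_zero]
    exact Submodule.zero_mem _
  · intro a b ha hb
    have : a + b - (counitA k (a + b)) • (1 : H k)
        = (a - (counitA k a) • 1) + (b - (counitA k b) • 1) := by
      rw [map_add, add_smul]
      abel
    rw [this]
    exact Submodule.add_mem _ ha hb
  · intro c a ha
    have : c • a - (counitA k (c • a)) • (1 : H k) = c • (a - (counitA k a) • 1) := by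
      rw [map_smul, smul_sub, smul_assoc]
    rw [this]
    exact Submodule.smul_mem _ _ ha
  · intro n hn
    rw [counitA_e, Nat.mod_eq_of_lt hn]
    by_cases h0 : n = 0
    · subst h0
      rw [if_pos rfl, one_smul, one_def, sub_self]
      exact Submodule.zero_mem _
    · rw [if_neg h0, zero_smul, sub_zero]
      exact e_mem_F k (by omega) hn

theorem pow_mem_F {x : H k} (hx : x ∈ F k 1) (n : ℕ) : x ^ (n + 1) ∈ F k (n + 1) := by
  induction n with
  | zero => simpa using hx
  | succ n ih =>
    rw [pow_succ']
    exact mul_mem_F k hx ih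

theorem isNilpotent {x : H k} (hx : counitA k x = 0) : IsNilpotent x := by
  have h1 := sub_counit_mem k x
  rw [hx, zero_smul, sub_zero] at h1
  refine ⟨64, ?_⟩
  have h2 := pow_mem_F k h1 63
  rw [show (63 + 1 : ℕ) = 64 from rfl, F_top] at h2
  exact h2

/-- The augmentation ideal. -/
noncomputable def m : Ideal (H k) := RingHom.ker (counitA k)

theorem mem_m {x : H k} : x ∈ m k ↔ counitA k x = 0 := RingHom.mem_ker

theorem m_maximal : (m k).IsMaximal := by
  constructor
  constructor
  · intro h
    have h1 : (1 : H k) ∈ m k := by rw [h]; trivial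
    rw [mem_m, map_one] at h1
    exact one_ne_zero h1
  · intro J hJ
    obtain ⟨hle, x, hxJ, hxm⟩ := SetLike.lt_iff_le_and_exists.1 hJ
    rw [mem_m] at hxm
    rw [Ideal.eq_top_iff_one]
    have h1 : x - (counitA k x) • (1 : H k) ∈ J := by
      apply hle
      rw [mem_m, map_sub, map_smul, map_one, smul_eq_mul, mul_one, sub_self]
    have h2 : (counitA k x) • (1 : H k) ∈ J := by
      have := J.sub_mem hxJ h1
      rwa [sub_sub_cancel] at this
    have h3 : ((counitA k x)⁻¹ • (1 : H k)) * ((counitA k x) • (1 : H k)) ∈ J :=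
      J.mul_mem_left _ h2
    rwa [smul_mul_smul_comm, inv_mul_cancel₀ hxm, one_smul, one_mul] at h3

theorem le_of_maximal {I : Ideal (H k)} (hI : I.IsMaximal) : m k ≤ I := by
  intro x hx
  by_contra hxI
  have h1 : I ⊔ Ideal.span {x} = ⊤ := by
    apply hI.out.2
    refine lt_of_le_of_ne le_sup_left ?_
    intro h
    apply hxI
    rw [h]
    exact (le_sup_right : Ideal.span {x} ≤ I ⊔ Ideal.span {x})
      (Ideal.subset_span (Set.mem_singleton x))
  rw [Ideal.eq_top_iff_one] at h1
  obtain ⟨i, hi, y, hy, hiy⟩ := Submodule.mem_sup.1 h1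
  obtain ⟨h, rfl⟩ := Ideal.mem_span_singleton'.1 hy
  have h2 : counitA k (h * x) = 0 := by
    rw [map_mul, (mem_m k).1 hx, mul_zero]
  have h3 : i = 1 - h * x := by rw [← hiy]; abel
  have h4 : IsUnit i := by
    rw [h3]
    exact (isNilpotent k h2).isUnit_one_sub
  exact hI.ne_top (Ideal.eq_top_of_isUnit_mem _ hi h4)

theorem exists_unique_maximal : ∃! I : Ideal (H k), I.IsMaximal := by
  refine ⟨m k, m_maximal k, ?_⟩
  intro I hI
  exact ((m_maximal k).eq_of_le hI.ne_top (le_of_maximal k hI)).symm

theorem lam_e63 {lam : H k →ₗ[k] k} (h : ∀ a b : H k, lam (a * b) = lam (b * a)) :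
    lam (e k 63) = 0 := by
  have h1 := Nat.eq_of_beq_eq_true chkComm_true
  have h2 : (fun a b => Nat.xor (mask (T a b)) (mask (T b a)))
      = fun a b => mask (T a b ++ T b a) := by
    funext a b
    rw [mask_append]
  rw [h2, xsp_mask (fun a b => T a b ++ T b a)] at h1
  have h3 := ev_eq_of_mask (add_self_zero k) (e k) h1
  rw [ev_flatMap_pair] at h3
  have h4 : ev (e k) [63] = e k 63 := by simp
  rw [h4] at h3
  rw [← h3, map_evp]
  have h5 : (fun i j => lam (ev (e k) (T i j ++ T j i))) = fun _ _ => (0 : k) := by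
    funext i j
    rw [ev_append, ← e_mul_e, ← e_mul_e, map_add, h, add_self_zero k]
  show evp (fun i j => lam (ev (e k) (T i j ++ T j i))) CP = 0
  rw [h5]
  induction CP with
  | nil => simp
  | cons a l ih => simp [ih]

theorem mul_e63 (h : H k) : h * e k 63 = counitA k h • e k 63 := by
  have h1 := mul_mem_F k (sub_counit_mem k h) (e_mem_F k (le_refl 63) (by norm_num))
  rw [show (63 + 1 : ℕ) = 64 from rfl, F_top, Submodule.mem_bot, sub_mul, smul_mul_assoc,
    one_mul, sub_eq_zero] at h1
  exact h1

theorem e63_ne_zero : e k 63 ≠ 0 := (bH k).ne_zero _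

theorem exists_ideal {lam : H k →ₗ[k] k} (h : ∀ a b : H k, lam (a * b) = lam (b * a)) :
    ∀ x ∈ Ideal.span {e k 63}, lam x = 0 := by
  intro x hx
  obtain ⟨y, rfl⟩ := Ideal.mem_span_singleton'.1 hx
  rw [mul_e63, map_smul, lam_e63 k h, smul_zero]

theorem not_symmetric : ¬ IsSymmetricAlgebra k (H k) := by
  rintro ⟨lam, h1, h2⟩
  have h3 := h2 _ (exists_ideal k h1)
  rw [Ideal.span_singleton_eq_bot] at h3
  exact e63_ne_zero k h3

end

/-- Over every field `k` of characteristic two there is a Hopf algebra of dimension `64` which is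
local (it has a unique maximal left ideal) and whose underlying algebra is not symmetric; nor is
it isomorphic to its dual as a bimodule. -/
theorem result (k : Type u) [Field k] [CharP k 2] :
    ∃ (A : Type u) (_ : Ring A) (_ : HopfAlgebra k A),
      Module.Finite k A ∧ Module.finrank k A = 64 ∧
      (∃! I : Ideal A, I.IsMaximal) ∧
      ¬ IsSymmetricAlgebra k A ∧
      ¬ ∃ f : A ≃ₗ[k] (A →ₗ[k] k), ∀ a x b y : A, f (a * x * b) y = f x (b * y * a) := by
  refine ⟨H k, instRing k, instHopf k, Module.Finite.of_basis (bH k), ?_,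
    exists_unique_maximal k, not_symmetric k, ?_⟩
  · rw [Module.finrank_eq_card_basis (bH k), Fintype.card_fin]
  · rintro ⟨f, hf⟩
    apply not_symmetric k
    refine ⟨f 1, ?_, ?_⟩
    · intro a b
      have h1 := hf 1 1 a b
      have h2 := hf a 1 1 b
      rw [one_mul, one_mul, mul_one] at h1
      rw [mul_one, mul_one, one_mul] at h2
      rw [← h1, h2]
    · intro I hI
      rw [eq_bot_iff]
      intro x hx
      have h1 : f x = 0 := by
        apply LinearMap.ext
        intro y
        have h2 := hf x 1 1 y
        rw [mul_one, mul_one, one_mul] at h2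
        rw [h2]
        exact hI _ (I.mul_mem_left y hx)
      have h3 : x = 0 := by
        rw [← f.map_zero] at h1
        exact f.injective h1
      rw [h3]
      exact Submodule.zero_mem _

end Pool.Agent.Results.MP_af7f8e_al.NonSymmetricLocal
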